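import Pool.Agent.H59.KA.Stmts

/-!
# Project KA, module QAF: the affine covariant form of `GQ`
-/

set_option autoImplicit false

open MeasureTheory Set Filter Topology
open scoped ContDiff

namespace Pool.Agent.H59.KA

open Pool.Agent.H84 hiding cv mn
open Pool.Agent.H84.Sym Pool.Agent.H84.Sym.P2x Pool.Agent.H19.KL
open Pool.Agent.H73.KG Pool.Agent.H20.KH Pool.Agent.H78.KP

theorem qaf_inner {E : Type} [NormedAddCommGroup E] [InnerProductSpace ℝ E]
    {ι : Type} [Fintype ι] (b : OrthonormalBasis ι ℝ E) (l : ι → ℝ) (v : E) (i : ι) :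
    inner ℝ (b i) (dl b l v) = l i * inner ℝ (b i) v := by
  classical
  unfold dl
  rw [inner_sum, Finset.sum_eq_single i]
  · rw [real_inner_smul_right, real_inner_self_eq_norm_sq, b.norm_eq_one]
    ring
  · intro j _ hj
    rw [real_inner_smul_right, b.inner_eq_zero hj.symm, mul_zero]
  · intro h
    exact absurd (Finset.mem_univ i) h

theorem qaf_thm (E : Type) [NormedAddCommGroup E] [InnerProductSpace ℝ E]
    [FiniteDimensional ℝ E] [MeasurableSpace E] [BorelSpace E]
    (hDIA : DIAStmt E) (hQDL : QDLStmt E) : QAFStmt E := by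
  intro t' g ht' hg U t hU ι _ _ b β hβ hess B c hB
  set l : ι → ℝ := fun i => Real.sqrt (t' / β i) with hl
  have hl0 : ∀ i, 0 < l i := fun i => Real.sqrt_pos.2 (div_pos ht' (hβ i))
  have hll : ∀ i, l i * l i = t' / β i := fun i =>
    Real.mul_self_sqrt (div_pos ht' (hβ i)).le
  obtain ⟨-, h2, -, h4, -, -⟩ := hDIA U t hU ι b l hl0
  obtain ⟨-, k2, k3⟩ := hQDL U t hU ι b l hl0 B c
  have hP : PP (dU b l U) t' := by
    refine h2 t' ht' fun x v => ?_
    refine le_trans (le_of_eq ?_) (hess x (dl b l v))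
    have e1 : ‖v‖ ^ 2 = ∑ i, (inner ℝ (b i) v) ^ 2 := by
      rw [← b.sum_sq_norm_inner_right v]
      refine Finset.sum_congr rfl fun i _ => ?_
      rw [Real.norm_eq_abs, sq_abs]
    rw [e1, Finset.mul_sum]
    refine Finset.sum_congr rfl fun i _ => ?_
    rw [qaf_inner, mul_pow, pow_two (l i), hll i]
    have := (hβ i).ne'
    field_simp
  have hB' : SY (Matrix.of fun i j => l i * B i j * l j) := by
    intro i j
    simp only [Matrix.of_apply]
    rw [hB i j]
    ring
  have h5 := hg (dU b l U) hP ι b (Matrix.of fun i j => l i * B i j * l j)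
    (fun i => l i * c i) hB'
  rw [k3] at h5
  refine h5.trans (le_of_eq ?_)
  congr 1
  have hM : ∀ i j, (cm b (dU b l U) + 1) i j =
      (cm b U + Matrix.diagonal (fun i => t' / β i)) i j / (l i * l j) := by
    intro i j
    rw [Matrix.add_apply, Matrix.add_apply, h4 i j]
    by_cases hij : i = j
    · subst hij
      rw [Matrix.one_apply_eq, Matrix.diagonal_apply_eq, hll i, add_div,
        div_self (div_pos ht' (hβ i)).ne']
    · rw [Matrix.one_apply_ne hij, Matrix.diagonal_apply_ne _ hij, add_zero, add_zero]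
  unfold Ph
  congr 1
  · refine Finset.sum_congr rfl fun i _ => Finset.sum_congr rfl fun j _ =>
      Finset.sum_congr rfl fun k _ => Finset.sum_congr rfl fun m _ => ?_
    rw [hM i j, hM k m]
    simp only [Matrix.of_apply]
    have a1 := (hl0 i).ne'
    have a2 := (hl0 j).ne'
    have a3 := (hl0 k).ne'
    have a4 := (hl0 m).ne'
    field_simp
  · refine Finset.sum_congr rfl fun i _ => Finset.sum_congr rfl fun j _ => ?_
    rw [hM i j, k2 i, k2 j]
    have a1 := (hl0 i).ne'
    have a2 := (hl0 j).ne'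
    field_simp

end Pool.Agent.H59.KA
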